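import Pool.Agent.VMX.StmtsB

/-!
# VMX, row FLT: the functional and the transports
-/

set_option autoImplicit false

open Matrix Filter Topology

namespace Pool.Agent.VMX.H49

open Pool.Agent.PFS Pool.Agent.PFJ Pool.Agent.NBT Pool.Agent.VMX

/-- a functional which is one at a given nonzero vector -/
theorem fun_one {n : ℕ} {x : V n} (hx : x ≠ 0) : ∃ lam : V n →ₗ[ℝ] ℝ, lam x = 1 := by
  obtain ⟨j, hj⟩ : ∃ j, x j ≠ 0 := by
    by_contra hcon
    push Not at hcon
    exact hx (funext hcon)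
  refine ⟨(x j)⁻¹ • (LinearMap.proj j : V n →ₗ[ℝ] ℝ), ?_⟩
  rw [LinearMap.smul_apply, LinearMap.proj_apply, smul_eq_mul, inv_mul_cancel₀ hj]

theorem flt (zpf : ZpfStmt) (zpt : ZptStmt) (_fmc : FmcStmt) (ces : CesStmt) (trp : TrpStmt) :
    FltStmt := by
  intro n C Γ Γ₀ K p J c F hS z hz j hjp hjJ m hmJ θ1 θ2 g1 g2 s1 s2 T1 L1 T2 L2 hg1 hg2 hZ1 hZ2 _
  have hcc : CC C Γ := hS.cc
  have hc : PCone C := hcc.toPCone
  have hmp : m ≠ p := fun h => hS.pJ (h ▸ hmJ)
  have hmj : m ≠ j := fun h => hjJ (h ▸ hmJ)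
  have hpes : IsPES C Γ z := hS.toFAM.pes z hz
  have hcl : ∀ i, z i ∈ closure C := hpes.1.cl
  obtain ⟨f1, f2, f3, f4, -⟩ := zpf n C Γ hcc _ _ (fS_cl hc hcl _) (fS_cl hc hcl _) θ1 g1 s1 T1 L1 hZ1
  have hm1 : m ∈ ({p, j} : Finset (Fin K))ᶜ := by
    simp [hmp, hmj]
  have hp1 : p ∈ ({p, j} : Finset (Fin K))ᶜᶜ := by
    simp
  have hp2 : p ∉ ({p, j} : Finset (Fin K))ᶜ := by
    simp
  obtain ⟨hW, -⟩ := zpt n C Γ hcc K z hpes ({p, j}ᶜ) ⟨m, hm1⟩ ⟨p, hp1⟩ θ1 g1 s1 T1 L1 hZ1
  have hWp : zW z {p, j}ᶜ T1 L1 p = T1 (z p) := if_neg hp2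
  have hK := hS.three
  have hext : Ext C (T1 (z p)) := by
    have := exv n C Γ hcc K (by omega) hS.maxc _ hW p
    rwa [hWp] at this
  have hTp0 : T1 (z p) ≠ 0 := by
    have := (Pool.Agent.PFS.H60.lin n C hc (Fin K) _ hW.1).ne_zero p
    rwa [hWp] at this
  have hTpc : T1 (z p) ∈ closure C := f1 _ (hcl p)
  set S : Finset (Fin K) := ({p, j} : Finset (Fin K))ᶜ.erase m with hSd
  have hsum : fS z {p, j}ᶜ = z m + ∑ i ∈ S, z i := (Finset.add_sum_erase _ _ hm1).symm
  have hTm : T1 (z m) = 0 := by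
    apply hc.salient _ (f1 _ (hcl m))
    have h1 : T1 (∑ i ∈ S, z i) = -T1 (z m) := by
      have h2 := f2
      rw [hsum, map_add] at h2
      exact eq_neg_of_add_eq_zero_right h2
    rw [← h1]
    exact f1 _ (hc.cl_sum fun i _ => hcl i)
  obtain ⟨⟨hpE, hmE, -⟩, hmv, -⟩ := ces n C Γ Γ₀ K p J c F hS z hz m hmJ
  -- moves are in the closed cone
  have hmvcl : ∀ (i : Fin K) (v : V n), Tm C F p i z v → v ∈ closure C := by
    intro i v hv
    have := (hS.toFAM.pes _ hv.1).1.cl p
    rwa [Function.update_self] at this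
  obtain ⟨lam, hlam⟩ := fun_one hTp0
  have hspan : ∀ u ∈ Es C F p m z, T1 u ∈ Submodule.span ℝ {T1 (z p)} := by
    intro u hu
    have hle : Es C F p m z ≤ (Submodule.span ℝ {T1 (z p)}).comap T1 := by
      unfold Es
      rw [Submodule.span_le]
      rintro x (hx | hx)
      · rw [Set.mem_singleton_iff] at hx
        rw [hx, SetLike.mem_coe, Submodule.mem_comap, hTm]
        exact Submodule.zero_mem _
      · obtain ⟨M, -, hM⟩ := hx.2
        have h1 := f1 _ hM
        rw [map_sub, map_smul, map_add, hTm, add_zero] at h1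
        obtain ⟨b, hb⟩ := hext _ (f1 _ (hmvcl m x hx)) M h1
        rw [SetLike.mem_coe, Submodule.mem_comap, hb]
        exact Submodule.smul_mem _ _ (Submodule.mem_span_singleton_self _)
    exact hle hu
  have hτ : ∀ u ∈ Es C F p m z, T1 u = (lam (T1 u)) • T1 (z p) := by
    intro u hu
    obtain ⟨b, hb⟩ := Submodule.mem_span_singleton.1 (hspan u hu)
    rw [← hb, map_smul, hlam, smul_eq_mul, mul_one]
  refine ⟨lam.comp T1, ?_, ?_, ?_, ?_, ?_⟩
  · exact hlam
  · change lam (T1 (z m)) = 0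
    rw [hTm, map_zero]
  · exact hτ
  · intro v hv
    change 0 < lam (T1 v)
    obtain ⟨-, ⟨M, hM, h1⟩, -⟩ := hmv v hv
    have h2 := f1 _ h1
    rw [map_sub, map_smul, map_add, hTm, add_zero,
      hτ v (Submodule.subset_span (Or.inr hv)), smul_smul] at h2
    by_contra hcon
    push Not at hcon
    apply hTp0
    apply hc.salient _ hTpc
    have h3 : (1 - M * lam (T1 v)) • -T1 (z p) = (M * lam (T1 v)) • T1 (z p) - T1 (z p) := by
      module
    rw [← h3] at h2
    have h4 : 0 < 1 - M * lam (T1 v) := by nlinarith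
    exact (hc.cl_smul_iff h4).1 h2
  · intro h hh
    obtain ⟨ψ, -, hψ2, hψ3, hψm, ⟨a, ha, hψp⟩, hψ6, -⟩ := trp n C Γ Γ₀ K p J c F hS z hz m hmJ θ2 g2
      s2 T2 L2 hg2 hZ2 j h hjp hmj.symm hh.1 hh.2
    refine ⟨a, ψ, ha, hψp, hψm, hψ2, ?_, ?_⟩
    · -- key
      have hkey : ∀ u ∈ Es C F p m z, T1 u = 0 → T1 (ψ u) ∈ closure C := by
        intro u hu h0
        apply cl_of_eps (f := T1 (a • h))
        intro ε hε
        obtain ⟨κ, hκ, h1⟩ := f4 u (by rw [h0]; exact hc.zero_cl) ε hε
        have hvE : u + ε • z p + κ • z m ∈ Es C F p m z :=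
          Submodule.add_mem _ (Submodule.add_mem _ hu (Submodule.smul_mem _ _ hpE))
            (Submodule.smul_mem _ _ hmE)
        have hset : ({p, m} : Finset (Fin K))ᶜ = insert j S := by
          ext l
          simp only [hSd, Finset.mem_compl, Finset.mem_insert, Finset.mem_singleton,
            Finset.mem_erase, not_or]
          constructor
          · rintro ⟨h3, h4⟩
            by_cases h5 : l = j
            · exact Or.inl h5
            · exact Or.inr ⟨h4, h3, h5⟩
          · rintro (h3 | ⟨h3, h4, h5⟩)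
            · rw [h3]
              exact ⟨hjp, hmj.symm⟩
            · exact ⟨h4, h3⟩
        have hjS : j ∉ S := by
          simp [hSd]
        have h2 : u + ε • z p + κ • z m + ∑ l ∈ ({p, m} : Finset (Fin K))ᶜ,
            (if l = j then ε else κ) • z l ∈ closure C := by
          have e1 : ∑ l ∈ ({p, m} : Finset (Fin K))ᶜ, (if l = j then ε else κ) • z l
              = ε • z j + κ • ∑ l ∈ S, z l := by
            rw [hset, Finset.sum_insert hjS, if_pos rfl, Finset.smul_sum]
            congr 1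
            refine Finset.sum_congr rfl fun l hl => ?_
            rw [if_neg (by rintro rfl; exact hjS hl)]
          rw [compl_compl, fS_pair z hjp.symm, hsum] at h1
          rw [e1]
          have e2 : u + ε • z p + κ • z m + (ε • z j + κ • ∑ l ∈ S, z l)
              = u + ε • (z p + z j) + κ • (z m + ∑ l ∈ S, z l) := by
            module
          rw [e2]
          exact h1
        have h3 := (((Pool.Agent.NBT.H13.ibf n C hc K z hpes.1).1 {p, m} _
          (hS.box z hz m hmJ)).2.2.1 _ hvE _ h2).1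
        have h4 := f1 _ ((hψ3 _ hvE).2 h3)
        have h5 : ψ (u + ε • z p + κ • z m) = ψ u + ε • (a • h) + κ • z m := by
          rw [map_add, map_add, map_smul, map_smul, hψp, hψm]
        rw [h5, map_add, map_add, T1.map_smul ε (a • h), T1.map_smul κ (z m), hTm, smul_zero,
          add_zero] at h4
        exact h4
      have hzero : ∀ u ∈ Es C F p m z, T1 u = 0 → T1 (ψ u) = 0 := by
        intro u hu h0
        apply hc.salient _ (hkey u hu h0)
        have := hkey (-u) (Submodule.neg_mem _ hu) (by rw [map_neg, h0, neg_zero])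
        rwa [map_neg, map_neg] at this
      intro u hu
      change T1 (ψ u) = lam (T1 u) • T1 (a • h)
      have h1 : T1 (u - lam (T1 u) • z p) = 0 := by
        rw [map_sub, map_smul, ← hτ u hu, sub_self]
      have h2 := hzero _ (Submodule.sub_mem _ hu (Submodule.smul_mem _ _ hpE)) h1
      rw [map_sub, map_smul, hψp, map_sub, map_smul, sub_eq_zero] at h2
      exact h2
    · intro v hv
      obtain ⟨h1, h2⟩ := hψ6 v hv
      refine ⟨?_, ?_⟩
      · have h3 := h1.1
        rw [Function.update_idem] at h3 ⊢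
        exact h3
      · rw [Function.update_self, Function.update_of_ne hjp]
        exact h2

end Pool.Agent.VMX.H49
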