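import Pool.Agent.VMX.StmtsA

/-!
# VMX, row FMI: faces of top simplices are visible from the facets
-/

set_option autoImplicit false

open Matrix Filter Topology

namespace Pool.Agent.VMX.H49

open Pool.Agent.PFS Pool.Agent.PFJ Pool.Agent.NBT Pool.Agent.VMX

variable {n K : ℕ} {C : Set (V n)} {Γ : Subgroup (GL (Fin n) ℝ)}

theorem hull_sum (hH : HulFacts C Γ) {s : Finset (Fin K)} (hs : s.Nonempty) {f : Fin K → V n}
    (hf : ∀ i ∈ s, f i ∈ Hull C Γ) : ∑ i ∈ s, f i ∈ Hull C Γ :=
  Finset.sum_induction_nonempty f (fun x => x ∈ Hull C Γ) (fun a b ha hb => hH.add a ha b hb) hs hf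

theorem hull_add_sum (hH : HulFacts C Γ) {a : V n} (ha : a ∈ Hull C Γ) (s : Finset (Fin K))
    {f : Fin K → V n} (hf : ∀ i ∈ s, f i ∈ Hull C Γ ∨ f i = 0) : a + ∑ i ∈ s, f i ∈ Hull C Γ := by
  classical
  induction s using Finset.induction_on with
  | empty => simpa using ha
  | insert b s hb ih =>
    rw [Finset.sum_insert hb]
    have h1 := ih fun i hi => hf i (Finset.mem_insert_of_mem hi)
    rcases hf b (Finset.mem_insert_self b s) with h2 | h2
    · have e : a + (f b + ∑ i ∈ s, f i) = (a + ∑ i ∈ s, f i) + f b := by abel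
      rw [e]
      exact hH.add _ h1 _ h2
    · rw [h2, zero_add]
      exact h1

/-- existence of a zoom -/
theorem zoom (zpx : ZpxStmt) (hcc : CC C Γ) {u R : V n} (hu : u ∈ closure C)
    (hR : R ∈ closure C) (huR : u + R ∈ C) (huH : u ∈ Hull C Γ) (hRH : R ∈ Hull C Γ) :
    ∃ (θ : ℕ → ℝ) (g : ℕ → GL (Fin n) ℝ) (s : ℕ → ℝ) (T L : V n →ₗ[ℝ] V n),
      Zp C Γ u R θ g s T L := by
  have hc : PCone C := hcc.toPCone
  have hH : HulFacts C Γ := hcc.hul
  obtain ⟨φ, g, s, q, hφ, hg, hs, hq, hlim⟩ := Pool.Agent.PFS.H60.zom n C Γ hcc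
    (fun k : ℕ => Real.exp (k : ℝ) • u + R)
    (by
      intro m
      have e : Real.exp (m : ℝ) • u + R = (u + R) + (Real.exp (m : ℝ) - 1) • u := by module
      change Real.exp (m : ℝ) • u + R ∈ C
      rw [e]
      refine hc.add_cl huR (hc.cl_smul hu ?_)
      have : 1 ≤ Real.exp (m : ℝ) := Real.one_le_exp (Nat.cast_nonneg m)
      linarith)
    (fun m => hH.add _ (hH.smul _ huH _ (Real.exp_pos _)) _ hRH)
  obtain ⟨ψ, T, L, hψ, hZ, -⟩ := zpx n C Γ hcc u R hu hR huR (fun k => ((φ k : ℕ) : ℝ)) g s q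
    (tendsto_natCast_atTop_atTop.comp hφ.tendsto_atTop) hg hs hq hlim
  exact ⟨_, _, _, T, L, hZ⟩

theorem fmi (zpx : ZpxStmt) (zpf : ZpfStmt) : FmiStmt := by
  intro n C Γ hcc K hK hmax z hz I hI q hq hqm
  have hc : PCone C := hcc.toPCone
  have hH : HulFacts C Γ := hcc.hul
  have hcl : ∀ i, z i ∈ closure C := hz.1.cl
  have hf : ∑ i, z i ∈ C := hz.1.sum_mem
  have hqcl : q ∈ closure C := hH.lamCl q hq
  by_cases hIc : ∀ m, m ∈ I
  · have hIu : I = Finset.univ := Finset.eq_univ_iff_forall.2 hIc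
    obtain ⟨M, hM, h1⟩ := hc.absorb hf q
    refine ⟨M, hM, ?_⟩
    rw [hIu]
    exact subset_closure h1
  push Not at hIc
  obtain ⟨m0, hm0⟩ := hIc
  -- sums without one vertex
  have hno : ∀ m, (∑ i, z i) - z m ∉ C := by
    intro m hcon
    apply hz.1.bd (fun i => if i = m then 0 else 1) (fun i => by split_ifs <;> norm_num) ⟨m, if_pos rfl⟩
    have e : ∑ i, (if i = m then (0 : ℝ) else 1) • z i = (∑ i, z i) - z m := by
      have h1 : ∀ i, (if i = m then (0 : ℝ) else 1) • z i = z i - (if i = m then z i else 0) := by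
        intro i
        split_ifs <;> simp
      simp_rw [h1]
      rw [Finset.sum_sub_distrib]
      simp
    rw [e]
    exact hcon
  set f : V n := ∑ i, z i with hfd
  have hstar : ∀ m, m ∉ I → ∃ M : ℝ, 0 < M ∧ M • (f - z m) - q ∈ closure C := by
    intro m hm
    have e : ∑ i ∈ Finset.univ.erase m, z i = f - z m :=
      Finset.sum_erase_eq_sub (Finset.mem_univ m)
    have h1 := Pool.Agent.PFJ.H10.fmx n C Γ hcc K hK hmax z m q hz hq (by
      have h2 := hqm m hm
      unfold fS at h2
      rw [Finset.compl_singleton] at h2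
      rwa [add_comm])
    rwa [e] at h1
  by_contra hDm
  have hneg : ∀ M : ℝ, 0 < M → M • fS z I - q ∉ closure C := by
    intro M hM h1
    exact hDm ⟨M, hM, h1⟩
  set fI : V n := fS z I with hfI
  set R : V n := fS z Iᶜ with hRd
  have hfIR : fI + R = f := fS_add_compl z I
  have hfIcl : fI ∈ closure C := fS_cl hc hcl I
  have hRcl : R ∈ closure C := fS_cl hc hcl Iᶜ
  have hsubI : ∀ i ∈ I, fI - z i ∈ closure C := by
    intro i hi
    have e : fI - z i = ∑ l ∈ I.erase i, z l := (Finset.sum_erase_eq_sub hi).symm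
    rw [e]
    exact hc.cl_sum fun l _ => hcl l
  have hsubR : ∀ m, m ∉ I → R - z m ∈ closure C := by
    intro m hm
    have e : R - z m = ∑ l ∈ Iᶜ.erase m, z l :=
      (Finset.sum_erase_eq_sub (Finset.mem_compl.2 hm)).symm
    rw [e]
    exact hc.cl_sum fun l _ => hcl l
  have hfI0 : fI ≠ 0 := by
    intro h0
    obtain ⟨i, hi⟩ := hI
    have h1 := hsubI i hi
    rw [h0, zero_sub] at h1
    exact hH.lamNe _ (hz.2 i) (hc.salient _ (hcl i) h1)
  set w : V n := fI + q with hwd
  have hwcl : w ∈ closure C := hc.cl_add hfIcl hqcl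
  have hfIH : fI ∈ Hull C Γ := hull_sum hH hI fun i _ => hH.lamHull _ (hz.2 i)
  have hRH : R ∈ Hull C Γ := hull_sum hH ⟨m0, Finset.mem_compl.2 hm0⟩ fun i _ => hH.lamHull _ (hz.2 i)
  have hwH : w ∈ Hull C Γ := hH.add _ hfIH _ (hH.lamHull _ hq)
  -- domination by the sums without m
  have hdom : ∀ m, m ∉ I → ∃ M : ℝ, 0 < M ∧ M • (f - z m) - w ∈ closure C := by
    intro m hm
    obtain ⟨M, hM, h1⟩ := hstar m hm
    refine ⟨M + 1, by linarith, ?_⟩
    have e : (M + 1) • (f - z m) - w = (M • (f - z m) - q) + (R - z m) := by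
      rw [hwd, ← hfIR]
      module
    rw [e]
    exact hc.cl_add h1 (hsubR m hm)
  have hwC : w ∉ C := by
    intro hcon
    obtain ⟨M, hM, h1⟩ := hdom m0 hm0
    exact hno m0 ((hc.smul_iff hM).1 (hc.mem_of_le hcon h1))
  have hw0 : w ≠ 0 := by
    intro h0
    apply hfI0
    apply hc.salient _ hfIcl
    have e : -fI = q := by
      rw [hwd] at h0
      exact (eq_neg_of_add_eq_zero_right h0).symm
    rw [e]
    exact hqcl
  have hwL : w ∈ LamC C Γ := Pool.Agent.PFS.H37.cloF n C Γ hcc (fun _ => w) w (fun _ => hwH)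
    tendsto_const_nhds hwC hw0
  have hwR : w + R ∈ C := by
    have e : w + R = f + q := by
      rw [hwd, ← hfIR]
      abel
    rw [e]
    exact hc.add_cl hf hqcl
  -- first zoom
  obtain ⟨θ, g, s, T, L, hZ⟩ := zoom zpx hcc hwcl hRcl hwR hwH hRH
  obtain ⟨f1, f2, -, -, f5, f6, f7, f8, f9, -⟩ := zpf n C Γ hcc w R hwcl hRcl θ g s T L hZ
  obtain ⟨hwun, hface, -⟩ := fcs n C hc w hwcl
  have hsw : w ∈ sF C w := hwun.1
  have hsI : fI ∈ sF C w := by
    refine hface fI hfIcl 1 ?_
    have e : (1 : ℝ) • w - fI = q := by rw [hwd]; module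
    rw [e]
    exact hqcl
  have hsq : q ∈ sF C w := by
    refine hface q hqcl 1 ?_
    have e : (1 : ℝ) • w - q = fI := by rw [hwd]; module
    rw [e]
    exact hfIcl
  have hsz : ∀ i ∈ I, z i ∈ sF C w := by
    intro i hi
    refine hface (z i) (hcl i) 1 ?_
    have e : (1 : ℝ) • w - z i = (fI - z i) + q := by rw [hwd]; module
    rw [e]
    exact hc.cl_add (hsubI i hi) hqcl
  have hA : ∀ κ : ℝ, 0 < κ → κ • L fI + T R ∉ C := by
    intro κ hκ hcon
    obtain ⟨M, hM, h1⟩ := hc.absorb hcon (L w)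
    have e : M • (κ • L fI + T R) - L w = L ((M * κ) • fI - w) + M • T R := by
      rw [map_sub, map_smul]
      module
    rw [e] at h1
    have h2 := f6 _ (Submodule.sub_mem _ (Submodule.smul_mem _ _ hsI) hsw) M (subset_closure h1)
    apply hneg (M * κ) (by positivity)
    have e2 : (M * κ) • fI - q = ((M * κ) • fI - w) + fI := by rw [hwd]; module
    rw [e2]
    exact hc.cl_add h2 hfIcl
  have hCm : ∀ m, m ∉ I → ∀ κ : ℝ, 0 < κ → κ • L w + T (R - z m) ∉ C := by
    intro m hm κ hκ
    obtain ⟨M, hM, h1⟩ := hdom m hm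
    have h2 := f7 (κ • w) (Submodule.smul_mem _ _ hsw) (R - z m) (by
      intro κ' hκ' hcon
      apply hno m
      apply (hc.smul_iff (show 0 < κ' * κ * M + 1 by positivity)).1
      refine hc.mem_of_le hcon ?_
      have e : (κ' * κ * M + 1) • (f - z m) - (κ' • κ • w + (R - z m))
          = (κ' * κ) • (M • (f - z m) - w) + fI := by
        rw [← hfIR]
        module
      rw [e]
      exact hc.cl_add (hc.cl_smul h1 (by positivity)) hfIcl)
    rw [map_smul] at h2
    exact h2
  -- second zoom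
  have hfIL : fI ∈ LamC C Γ := Pool.Agent.PFS.H37.flmF n C Γ hcc w hwL fI hfIcl hfI0 (by
    have e : w - fI = q := by rw [hwd]; abel
    rw [e]
    exact hqcl)
  have huL : L fI ∈ LamC C Γ := f8 _ hsI hfIL
  have hqL : L q ∈ LamC C Γ := f8 _ hsq hq
  have hucl : L fI ∈ closure C := hH.lamCl _ huL
  have hLq : L q ∈ closure C := hH.lamCl _ hqL
  have hR2cl : L q + T R ∈ closure C := hc.cl_add hLq (f1 _ hRcl)
  have hTz : ∀ i, T (z i) ∈ Hull C Γ ∨ T (z i) = 0 := by
    intro i
    by_cases h0 : T (z i) = 0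
    · exact Or.inr h0
    · exact Or.inl (hH.lamHull _ (f9 _ (hz.2 i) h0))
  have hR2H : L q + T R ∈ Hull C Γ := by
    have e : T R = ∑ i ∈ Iᶜ, T (z i) := by
      rw [hRd]
      unfold fS
      rw [map_sum]
    rw [e]
    exact hull_add_sum hH (hH.lamHull _ hqL) _ fun i _ => hTz i
  have huR2 : L fI + (L q + T R) ∈ C := by
    have e : L fI + (L q + T R) = L w + T R := by
      rw [hwd, map_add]
      abel
    rw [e]
    exact hZ.sum
  obtain ⟨θ', g', s', T', L', hZ'⟩ := zoom zpx hcc hucl hR2cl huR2 (hH.lamHull _ huL) hR2H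
  obtain ⟨k1, -, -, -, k5, k6, k7, k8, k9, -⟩ := zpf n C Γ hcc (L fI) (L q + T R) hucl hR2cl θ' g' s'
    T' L' hZ'
  obtain ⟨huun, hface', -⟩ := fcs n C hc (L fI) hucl
  have hsu : L fI ∈ sF C (L fI) := huun.1
  have hLsub : ∀ i ∈ I, L fI - L (z i) ∈ closure C := by
    intro i hi
    rw [← map_sub]
    exact (f5 _ (Submodule.sub_mem _ hsI (hsz i hi))).2 (hsubI i hi)
  have hLz : ∀ i ∈ I, L (z i) ∈ LamC C Γ := fun i hi => f8 _ (hsz i hi) (hz.2 i)
  have hsa : ∀ i ∈ I, L (z i) ∈ sF C (L fI) := by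
    intro i hi
    refine hface' _ (hH.lamCl _ (hLz i hi)) 1 ?_
    rw [one_smul]
    exact hLsub i hi
  -- the K + 1 vectors
  let W : Fin (K + 1) → V n :=
    Fin.cons (T' (L q)) (fun i => if i ∈ I then L' (L (z i)) else T' (T (z i)))
  have hW0 : W 0 = T' (L q) := rfl
  have hWI : ∀ i ∈ I, W i.succ = L' (L (z i)) := fun i hi => if_pos hi
  have hWc : ∀ i, i ∉ I → W i.succ = T' (T (z i)) := fun i hi => if_neg hi
  have hWsum : ∑ i, W i = L' (L fI) + T' (L q + T R) := by
    rw [Fin.sum_univ_succ, hW0]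
    have e1 : ∑ i : Fin K, W i.succ = L' (L fI) + T' (T R) := by
      rw [← Finset.sum_add_sum_compl I]
      congr 1
      · rw [hfI]
        unfold fS
        rw [map_sum, map_sum]
        exact Finset.sum_congr rfl fun i hi => hWI i hi
      · rw [hRd]
        unfold fS
        rw [map_sum, map_sum]
        exact Finset.sum_congr rfl fun i hi => hWc i (Finset.mem_compl.1 hi)
    rw [e1, map_add]
    abel
  have hWC : ∑ i, W i ∈ C := by
    rw [hWsum]
    exact hZ'.sum
  have hWno : ∀ i, (∑ j, W j) - W i ∉ C := by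
    intro i
    refine Fin.cases ?_ ?_ i
    · rw [hWsum, hW0]
      have h1 := k7 _ hsu (T R) hA
      have e : L' (L fI) + T' (L q + T R) - T' (L q) = L' (L fI) + T' (T R) := by
        rw [map_add]
        abel
      rw [e]
      exact h1
    · intro i
      by_cases hi : i ∈ I
      · rw [hWI i hi, hWsum]
        intro hcon
        obtain ⟨M, hM, h1⟩ := hc.absorb hcon (L' (L (z i)))
        have e : M • (L' (L fI) + T' (L q + T R) - L' (L (z i))) - L' (L (z i))
            = L' (M • (L fI - L (z i)) - L (z i)) + M • T' (L q + T R) := by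
          rw [map_sub, map_smul, map_sub]
          module
        rw [e] at h1
        have h2 := k6 _ (Submodule.sub_mem _ (Submodule.smul_mem _ _
          (Submodule.sub_mem _ hsu (hsa i hi))) (hsa i hi)) M (subset_closure h1)
        have e2 : M • (L fI - L (z i)) - L (z i) = L (M • (fI - z i) - z i) := by
          rw [map_sub, map_smul, map_sub]
        rw [e2] at h2
        have h3 := (f5 _ (Submodule.sub_mem _ (Submodule.smul_mem _ _
          (Submodule.sub_mem _ hsI (hsz i hi))) (hsz i hi))).1 h2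
        have h4 := hc.cl_add h3 (hc.cl_smul hRcl hM.le)
        have e3 : M • (fI - z i) - z i + M • R
            = ∑ l, (M - (if l = i then M + 1 else 0)) • z l := by
          have e4 : ∀ l, (M - (if l = i then M + 1 else 0)) • z l
              = M • z l - (if l = i then (M + 1) • z l else 0) := by
            intro l
            split_ifs
            · rw [sub_smul]
            · rw [sub_zero, sub_zero]
          simp_rw [e4]
          rw [Finset.sum_sub_distrib, ← Finset.smul_sum, Finset.sum_ite_eq' Finset.univ i,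
            if_pos (Finset.mem_univ i)]
          have e5 : ∑ l, z l = fI + R := hfIR.symm
          rw [e5]
          module
        rw [e3] at h4
        have h5 := nng n C hc (Fin K) z hz.1 _ h4 i
        rw [if_pos rfl] at h5
        linarith
      · rw [hWc i hi, hWsum]
        have h1 := k7 _ hsu (L q + T (R - z i)) (by
          intro κ hκ hcon
          apply hCm i hi (max κ 1) (lt_of_lt_of_le one_pos (le_max_right _ _))
          refine hc.mem_of_le hcon ?_
          have e : max κ 1 • L w + T (R - z i) - (κ • L fI + (L q + T (R - z i)))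
              = (max κ 1 - κ) • L fI + (max κ 1 - 1) • L q := by
            rw [hwd, map_add]
            module
          rw [e]
          exact hc.cl_add (hc.cl_smul hucl (sub_nonneg.2 (le_max_left _ _)))
            (hc.cl_smul hLq (sub_nonneg.2 (le_max_right _ _))))
        have e : L' (L fI) + T' (L q + T R) - T' (T (z i))
            = L' (L fI) + T' (L q + T (R - z i)) := by
          rw [map_add, map_add, map_sub, map_sub]
          abel
        rw [e]
        exact h1
  have hWne : ∀ i, W i ≠ 0 := by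
    intro i h0
    have h1 := hWno i
    rw [h0, sub_zero] at h1
    exact h1 hWC
  have hWL : ∀ i, W i ∈ LamC C Γ := by
    intro i
    have h0 := hWne i
    revert h0
    refine Fin.cases ?_ ?_ i
    · intro h0
      exact k9 _ hqL h0
    · intro i h0
      by_cases hi : i ∈ I
      · rw [hWI i hi]
        exact k8 _ (hsa i hi) (hLz i hi)
      · rw [hWc i hi] at h0 ⊢
        have h1 : T (z i) ≠ 0 := by
          intro h2
          apply h0
          rw [h2, map_zero]
        exact k9 _ (f9 _ (hz.2 i) h1) h0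
  have hPES : PES C W := by
    apply Pool.Agent.PFS.H60.crt n C hc (Fin (K + 1)) W (fun i => hH.lamCl _ (hWL i)) hWC
    intro i
    rw [Finset.sum_erase_eq_sub (Finset.mem_univ i)]
    exact hWno i
  have := hmax (K + 1) W ⟨hPES, hWL⟩
  omega

end Pool.Agent.VMX.H49
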